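import Pool.Agent.H13.MA.Stmts

/-!
Module FBF: the relation forcing `(x, y) ∈ t`.
-/

set_option linter.unusedVariables false
set_option synthInstance.maxSize 100000

namespace SW

section
variable {M : Type} [SetStr M] [ZF M]

theorem fbf_df4 (F : FPoset M) (h : FSFacts F) :
    Df (fun w : Fin 4 → M => FS F QPr (w 0) ![w 1, w 2, w 3]) := by
  refine (h.df QPr).congr fun w => ?_
  have : (fun i : Fin 3 => w i.succ) = ![w 1, w 2, w 3] := by
    funext i
    fin_cases i <;> rfl
  rw [this]

theorem fbf_df (w I t : M) (h : FSFacts (PF w I)) :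
    Cl3 (fun x y q : M => FB w I t x y q) := by
  have hFP := fbf_df4 (PF w I) h
  have _ : ∀ {n : ℕ} {r s u : (Fin n → M) → M} [DfT r] [DfT s] [DfT u],
      Df (fun v => FS (PF w I) QPr (r v) ![chk (PF w I) (s v), chk (PF w I) (u v), t]) :=
    fun {n r s u} _ _ _ =>
      Df.comp4 (R := fun q z c a => FS (PF w I) QPr q ![z, c, a]) hFP inferInstance inferInstance
        inferInstance inferInstance
  unfold FB
  infer_instance

end

/-- **FBF** -/
theorem ma_fbf : FBFStmt := by
  intro M _ _ _ w I t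
  have hs : FSFacts (PF w I) := semF _
  refine ⟨fbf_df w I t hs, ?_, ?_⟩
  · rintro x y q q' ⟨h1, h2⟩ hq' hsub
    exact ⟨hq', fun G hG hq => h2 G hG (hG.up q' q hq h1 hsub)⟩
  · intro G hG _ x y
    rw [← pairIn_iff]
    constructor
    · intro h
      obtain ⟨p, hp, h2⟩ := (hs.truth QPr G hG ![chk (PF w I) x, chk (PF w I) y, t]).1 h
      exact ⟨p, hp, hG.sub p hp, h2⟩
    · rintro ⟨q, hq, -, h2⟩
      exact (hs.truth QPr G hG ![chk (PF w I) x, chk (PF w I) y, t]).2 ⟨q, hq, h2⟩

end SW
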