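import Pool.Agent.H13.MA.Stmts

/-!
Module RSA: restriction and amalgamation of conditions.
-/

set_option linter.unusedVariables false
set_option synthInstance.maxSize 100000

namespace SW

section
variable {M : Type} [SetStr M] [ZF M]

theorem rsa_fnt_sing (e : M) : Fnt (sing e) := by
  have h : Fnt (ins e (emp : M)) := finF.ins finF.emp
  exact finF.sub h fun z hz => by
    rw [mem_sing] at hz
    rw [mem_ins]
    exact Or.inr hz

/-- if `e` is in the system `J` and `Tr e x y q` then `q ⊆ J × w` -/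
theorem rsa_tr {w J e x y q : M} (hJ : Sys w J) (he : E e J) (h : Tr e x y q) :
    E x w ∧ E y w ∧ Fnt q ∧ Sub q (prod J w) := by
  obtain ⟨x', y', q', hx, hy, hf, hs, heq⟩ := hJ e he _ h
  rw [opair_inj, opair_inj] at heq
  obtain ⟨⟨rfl, rfl⟩, rfl⟩ := heq
  exact ⟨hx, hy, hf, hs⟩

theorem rsa_mono {w I J p : M} (hJI : Sub J I) (hp : E p (PP w J)) : E p (PP w I) := by
  rw [mem_PP] at hp ⊢
  obtain ⟨h1, h2, h3⟩ := hp
  refine ⟨h1, fun z hz => ?_, h3⟩
  obtain ⟨a, b, ha, hb, rfl⟩ := mem_prod'.1 (h2 z hz)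
  exact mem_prod.2 ⟨hJI a ha, hb⟩

theorem rsa_rs {w I J p : M} (hJ : Sys w J) (hp : E p (PP w I)) : E (rs w J p) (PP w J) := by
  rw [mem_PP] at hp ⊢
  obtain ⟨h1, h2, h3⟩ := hp
  refine ⟨finF.sub h1 fun z hz => (mem_rs.1 hz).1, fun z hz => (mem_rs.1 hz).2, ?_⟩
  intro e x y hx hy
  rw [mem_rs] at hx hy
  obtain ⟨q, hq, ht⟩ := h3 e x y hx.1 hy.1
  have hs := (rsa_tr hJ (mem_prod.1 hx.2).1 ht).2.2.2
  exact ⟨q, fun z hz => mem_rs.2 ⟨hq z hz, hs z hz⟩, ht⟩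

theorem rsa_ama {w I J p p' s : M} (hJ : Sys w J) (hJI : Sub J I) (hp : E p (PP w I))
    (hp' : E p' (PP w I)) (hs : E s (PP w J)) (h : Sub (rs w J p) s) (h' : Sub (rs w J p') s)
    (hc : ∀ e x y, E (opair e x) p → E (opair e y) p' → E e J) :
    E (bun (bun p p') s) (PP w I) := by
  rw [mem_PP] at hp hp' hs ⊢
  obtain ⟨a1, a2, a3⟩ := hp
  obtain ⟨b1, b2, b3⟩ := hp'
  obtain ⟨c1, c2, c3⟩ := hs
  refine ⟨finF.bun (finF.bun a1 b1) c1, fun z hz => ?_, ?_⟩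
  · rw [mem_bun, mem_bun] at hz
    rcases hz with (hz | hz) | hz
    · exact a2 z hz
    · exact b2 z hz
    · obtain ⟨a, b, ha, hb, rfl⟩ := mem_prod'.1 (c2 z hz)
      exact mem_prod.2 ⟨hJI a ha, hb⟩
  · intro e x y hx hy
    by_cases heJ : E e J
    · have key : ∀ x, E (opair e x) (bun (bun p p') s) → E (opair e x) s := by
        intro x hx
        rw [mem_bun, mem_bun] at hx
        rcases hx with (hx | hx) | hx
        · exact h _ (mem_rs.2 ⟨hx, mem_prod.2 ⟨heJ, (mem_prod.1 (a2 _ hx)).2⟩⟩)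
        · exact h' _ (mem_rs.2 ⟨hx, mem_prod.2 ⟨heJ, (mem_prod.1 (b2 _ hx)).2⟩⟩)
        · exact hx
      obtain ⟨q, hq, ht⟩ := c3 e x y (key x hx) (key y hy)
      exact ⟨q, fun z hz => mem_bun.2 (Or.inr (hq z hz)), ht⟩
    · have hn : ∀ x, ¬ E (opair e x) s := fun x hx => heJ (mem_prod.1 (c2 _ hx)).1
      rw [mem_bun, mem_bun] at hx hy
      rcases hx with (hx | hx) | hx
      · rcases hy with (hy | hy) | hy
        · obtain ⟨q, hq, ht⟩ := a3 e x y hx hy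
          exact ⟨q, fun z hz => mem_bun.2 (Or.inl (mem_bun.2 (Or.inl (hq z hz)))), ht⟩
        · exact absurd (hc e x y hx hy) heJ
        · exact absurd hy (hn y)
      · rcases hy with (hy | hy) | hy
        · exact absurd (hc e y x hy hx) heJ
        · obtain ⟨q, hq, ht⟩ := b3 e x y hx hy
          exact ⟨q, fun z hz => mem_bun.2 (Or.inl (mem_bun.2 (Or.inr (hq z hz)))), ht⟩
        · exact absurd hy (hn y)
      · exact absurd hx (hn x)

theorem rsa_add {w I e s f : M} (hI : Sys w I) (he : ¬ E e I) (hs : E s (PP w I)) (hf : Fnt f)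
    (hfw : Sub f w) (h : ∀ x y, E x f → E y f → ∃ q, Sub q s ∧ Tr e x y q) :
    E (bun s (prod (sing e) f)) (PP w (ins e I)) := by
  rw [mem_PP] at hs ⊢
  obtain ⟨c1, c2, c3⟩ := hs
  refine ⟨finF.bun c1 (finF.prod (rsa_fnt_sing e) hf), fun z hz => ?_, ?_⟩
  · rw [mem_bun] at hz
    rcases hz with hz | hz
    · obtain ⟨a, b, ha, hb, rfl⟩ := mem_prod'.1 (c2 z hz)
      exact mem_prod.2 ⟨mem_ins.2 (Or.inl ha), hb⟩
    · obtain ⟨a, b, ha, hb, rfl⟩ := mem_prod'.1 hz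
      exact mem_prod.2 ⟨mem_ins.2 (Or.inr (mem_sing.1 ha)), hfw b hb⟩
  · intro e' x y hx hy
    rw [mem_bun, mem_prod, mem_sing] at hx hy
    by_cases heq : e' = e
    · subst heq
      have hn : ∀ x, ¬ E (opair e' x) s := fun x hx => he (mem_prod.1 (c2 _ hx)).1
      have hx' := hx.resolve_left (hn x)
      have hy' := hy.resolve_left (hn y)
      obtain ⟨q, hq, ht⟩ := h x y hx'.2 hy'.2
      exact ⟨q, fun z hz => mem_bun.2 (Or.inl (hq z hz)), ht⟩
    · have hx' := hx.resolve_right fun h => heq h.1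
      have hy' := hy.resolve_right fun h => heq h.1
      obtain ⟨q, hq, ht⟩ := c3 e' x y hx' hy'
      exact ⟨q, fun z hz => mem_bun.2 (Or.inl (hq z hz)), ht⟩

end

/-- **RSA** -/
theorem ma_rsa : RSAStmt := fun M _ _ w =>
  { mono := fun h1 h2 => rsa_mono h1 h2
    rs := fun h1 h2 => rsa_rs h1 h2
    ama := fun h1 h2 h3 h4 h5 h6 h7 h8 => rsa_ama h1 h2 h3 h4 h5 h6 h7 h8
    add := fun h1 h2 h3 h4 h5 h6 => rsa_add h1 h2 h3 h4 h5 h6 }

end SW
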