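import Pool.Agent.H13.MA.Stmts

/-!
Module NB1: a bad sequence gives an uncountable antichain of finite free sets in the extension.
-/

set_option linter.unusedVariables false
set_option synthInstance.maxSize 100000

namespace SW

section
variable {M : Type} [SetStr M] [ZF M]

/-- the finite set attached to the condition `s` at the index `e` -/
noncomputable def nb1F (w e s : M) : M := sep w (fun x => E (opair e x) s)

theorem nb1F_df : DfT (fun v : Fin 3 → M => nb1F (v 0) (v 1) (v 2)) := by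
  unfold nb1F; infer_instance

instance {n : ℕ} {t s u : (Fin n → M) → M} [ht : DfT t] [hs : DfT s] [hu : DfT u] :
    DfT (fun v => nb1F (t v) (s v) (u v)) := nb1F_df.comp3 (f := fun a b c => nb1F a b c) ht hs hu

theorem nb1_mem {w e s x : M} : E x (nb1F w e s) ↔ E x w ∧ E (opair e x) s := by
  unfold nb1F
  rw [mem_sep]

theorem nb1_fnt {w I e s : M} (hs : E s (PP w I)) : Fnt (nb1F w e s) := by
  rw [mem_PP] at hs
  have h1 : Fnt (sUn (sUn s)) := by
    refine finF.sUn (finF.sUn hs.1 fun y hy => ?_) fun y hy => ?_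
    · obtain ⟨a, b, ha, hb, rfl⟩ := mem_prod'.1 (hs.2.1 y hy)
      have : Fnt (ins (sing a) (ins (upair a b) (emp : M))) := finF.ins (finF.ins finF.emp)
      refine finF.sub this fun z hz => ?_
      simp only [opair, mem_upair] at hz
      rw [mem_ins, mem_ins]
      rcases hz with rfl | rfl
      · exact Or.inr rfl
      · exact Or.inl (Or.inr rfl)
    · rw [mem_sUn] at hy
      obtain ⟨z, hz, hyz⟩ := hy
      obtain ⟨a, b, ha, hb, rfl⟩ := mem_prod'.1 (hs.2.1 z hz)
      have : Fnt (ins a (ins b (emp : M))) := finF.ins (finF.ins finF.emp)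
      refine finF.sub this fun u hu => ?_
      simp only [opair, mem_upair] at hyz
      rw [mem_ins, mem_ins]
      rcases hyz with rfl | rfl
      · exact Or.inr (mem_sing.1 hu)
      · rcases mem_upair.1 hu with rfl | rfl
        · exact Or.inr rfl
        · exact Or.inl (Or.inr rfl)
  refine finF.sub h1 fun x hx => ?_
  rw [nb1_mem] at hx
  rw [mem_sUn]
  refine ⟨upair e x, ?_, by simp⟩
  rw [mem_sUn]
  exact ⟨_, hx.2, by simp [opair]⟩

/-- a condition over `I ∪ {e}` is determined by its restriction and its part at `e` -/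
theorem nb1_cover {w I e s r F : M} (hs : E s (PP w (ins e I))) (h1 : Sub (rs w I s) r)
    (h2 : Sub (nb1F w e s) F) : Sub s (bun r (prod (sing e) F)) := by
  rw [mem_PP] at hs
  intro z hz
  have hz' := hs.2.1 z hz
  obtain ⟨a, b, ha, hb, rfl⟩ := mem_prod'.1 hz'
  rw [mem_bun, mem_prod, mem_sing]
  rcases mem_ins.1 ha with ha | rfl
  · exact Or.inl (h1 _ (mem_rs.2 ⟨hz, mem_prod.2 ⟨ha, hb⟩⟩))
  · exact Or.inr ⟨rfl, h2 _ (nb1_mem.2 ⟨hb, hz⟩)⟩

theorem nb1_nice {w I e x y q : M} {D : M → M → M → Prop} (hn : Nice w I D e)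
    (h : Tr e x y q) : E x w ∧ E y w ∧ E q (PP w I) ∧ D x y q := by
  obtain ⟨x', y', q', h1, h2, h3, h4, heq⟩ := hn.1 _ h
  rw [opair_inj, opair_inj] at heq
  obtain ⟨⟨rfl, rfl⟩, rfl⟩ := heq
  exact ⟨h1, h2, h3, h4⟩

/-- names `q'` with `Tr e x y q'` inside a condition in `G` are in `G` and force `(x, y) ∈ t` -/
theorem nb1_forced (hfb : FBFStmt) [Countable M] {w I t p e : M} {G : M → Prop}
    (hG : Gen (PF w I) G) [ZF (Ext (PF w I) G)] (hp : G p) (hn : Nice w I (DB w I t p) e)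
    {x y q s : M} (hs : G s) (hq : Sub q s) (h : Tr e x y q) :
    E (opair (emb (PF w I) G x) (emb (PF w I) G y)) (mk (PF w I) G t) := by
  obtain ⟨hx, hy, hqP, hD⟩ := nb1_nice hn h
  have hGq : G q := hG.up s q hs hqP hq
  have hc : Cpt (PP w I) q p := by
    obtain ⟨r, hr, h1, h2⟩ := hG.dir q p hGq hp
    exact ⟨r, hG.sub r hr, h1, h2⟩
  rcases hD with hD | ⟨-, hD⟩
  · exact absurd hc hD
  · exact ((hfb M w I t).2.2 G hG x y).2 ⟨q, hGq, hD⟩

/-- if `(x, y)` is in the value of `t` then some `q ∈ G` satisfies `Tr e x y q` -/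
theorem nb1_met (hfb : FBFStmt) [Countable M] {w I t p e : M} {G : M → Prop}
    (hG : Gen (PF w I) G) [ZF (Ext (PF w I) G)] (hp : G p) (hn : Nice w I (DB w I t p) e)
    {x y : M} (hx : E x w) (hy : E y w)
    (h : E (opair (emb (PF w I) G x) (emb (PF w I) G y)) (mk (PF w I) G t)) :
    ∃ q, G q ∧ Tr e x y q := by
  obtain ⟨q0, hq0, hF0⟩ := ((hfb M w I t).2.2 G hG x y).1 h
  obtain ⟨q1, hq1, h10, h1p⟩ := hG.dir q0 p hq0 hp
  have hq1P := hG.sub q1 hq1
  have hmono := (hfb M w I t).2.1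
  obtain ⟨r, hr, hr1, q, hq, ht⟩ := (genF hG).meetB (fun r : M => ∃ q, Sub q r ∧ Tr e x y q)
    inferInstance q1 hq1 (fun r hr hr1 => by
      have hD : DB w I t p x y r := Or.inr ⟨Sub.trans h1p hr1, hmono x y q0 r hF0 hr
        (Sub.trans h10 hr1)⟩
      obtain ⟨q, ht, r', hr', h2, h3⟩ := hn.2.1 x y r hx hy hr hD
      exact ⟨r', hr', h3, q, h2, ht⟩)
  exact ⟨q, hG.up r q hr (nb1_nice hn ht).2.2.1 hq, ht⟩

/-- the same for all pairs of members of a finite set at once -/
theorem nb1_all (hfb : FBFStmt) [Countable M] {w I t p e F : M} {G : M → Prop}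
    (hG : Gen (PF w I) G) [ZF (Ext (PF w I) G)] (hp : G p) (hn : Nice w I (DB w I t p) e)
    (hF : Fnt F) (hFw : Sub F w)
    (h : ∀ x y, E x F → E y F →
      E (opair (emb (PF w I) G x) (emb (PF w I) G y)) (mk (PF w I) G t)) :
    ∃ s, G s ∧ ∀ x y, E x F → E y F → ∃ q, Sub q s ∧ Tr e x y q := by
  have he := embF hG
  have ht := traF hG
  let N := Ext (PF w I) G
  let i : M → N := emb (PF w I) G
  have key : ∀ D : N, Fnt D → Sub D (i (prod F F)) → ∃ s : N, E s (mk (PF w I) G (Gnm (PF w I))) ∧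
      ∀ x y : N, E (opair x y) D → ∃ q : N, Sub q s ∧ E (opair (opair x y) q) (i e) := by
    refine finF.ind _ inferInstance ?_ ?_
    · intro _
      exact ⟨i emp, (he.G_mem _).2 ⟨emp, hG.one, rfl⟩, fun x y hxy => absurd hxy (not_mem_emp _)⟩
    · intro D z _ _ ih hsub
      obtain ⟨s, hs, hsD⟩ := ih fun u hu => hsub u (mem_ins.2 (Or.inl hu))
      obtain ⟨s0, hs0, rfl⟩ := (he.G_mem _).1 hs
      obtain ⟨z0, hz0, hz⟩ := he.trans z _ (hsub z (mem_ins.2 (Or.inr rfl)))
      obtain ⟨x, y, hx, hy, rfl⟩ := mem_prod'.1 hz0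
      obtain ⟨q, hq, htr⟩ := nb1_met hfb hG hp hn (hFw x hx) (hFw y hy) (h x y hx hy)
      obtain ⟨s1, hs1, h10, h1q⟩ := hG.dir s0 q hs0 hq
      refine ⟨i s1, (he.G_mem _).2 ⟨s1, hs1, rfl⟩, fun x' y' hxy => ?_⟩
      rcases mem_ins.1 hxy with hxy | hxy
      · obtain ⟨q', hq', h'⟩ := hsD x' y' hxy
        exact ⟨q', Sub.trans hq' ((ht.sub _ _).2 h10), h'⟩
      · rw [hz, ht.opair, opair_inj] at hxy
        obtain ⟨rfl, rfl⟩ := hxy
        refine ⟨i q, (ht.sub _ _).2 h1q, ?_⟩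
        have := (he.mem _ _).2 htr
        rw [ht.opair, ht.opair] at this
        exact this
  obtain ⟨s, hs, h2⟩ := key (i (prod F F)) (ht.fnt _ (finF.prod hF hF)) (Sub.refl _)
  obtain ⟨s0, hs0, rfl⟩ := (he.G_mem _).1 hs
  refine ⟨s0, hs0, fun x y hx hy => ?_⟩
  obtain ⟨q, hq, h3⟩ := h2 (i x) (i y) (by
    have := (he.mem (opair x y) (prod F F)).2 (mem_prod.2 ⟨hx, hy⟩)
    rwa [ht.opair] at this)
  obtain ⟨u, hu, h4⟩ := he.trans _ _ h3
  obtain ⟨x', y', q', -, -, -, -, rfl⟩ := hn.1 u hu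
  rw [ht.opair, ht.opair, opair_inj, opair_inj] at h4
  obtain ⟨⟨hx1, hy1⟩, rfl⟩ := h4
  have hx2 := (he.inj _ _).1 hx1
  have hy2 := (he.inj _ _).1 hy1
  subst hx2 hy2
  exact ⟨q', (ht.sub _ _).1 hq, hu⟩

end

/-- **NB1** -/
theorem ma_nb1 (hfb : FBFStmt) (hwx : WXStmt) (hwf : WFStmt) (hrs : RSAStmt)
    (hcb : CBAStmt) : NB1Stmt := by
  intro M _ _ _ w H I hM G hG _ t p e q V hp hn he hpq hq hB
  have hem := embF hG
  have ht := traF hG
  have hR := hrs M w
  obtain ⟨hqP, hV, hinc, hB4⟩ := hB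
  have hpa : ∀ a, E a w → E (rs w I (app V a)) (PP w I) := fun a ha => hR.rs hM.sys (hV a ha)
  -- the set of indices whose restriction is in `G`
  have hunb : ∀ b, E b w → ∃ a, E a w ∧ E b a ∧ G (rs w I (app V a)) := by
    intro b hb
    obtain ⟨r, hr, -, a, ha, hba, har⟩ := (genF hG).meetB
      (fun r : M => ∃ a, E a w ∧ E b a ∧ Sub (rs w I (app V a)) r) inferInstance q hq
      (fun r hr hqr => by
        obtain ⟨a, ha, hba, r', hr', h1, h2⟩ := hB4 r hr hqr b hb
        exact ⟨r', hr', h1, a, ha, hba, h2⟩)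
    exact ⟨a, ha, hba, hG.up r _ hr (hpa a ha) har⟩
  -- the finite sets are free
  have hfree : ∀ a, E a w → G (rs w I (app V a)) → ∀ x y, E x (nb1F w e (app V a)) →
      E y (nb1F w e (app V a)) →
      E (opair (emb (PF w I) G x) (emb (PF w I) G y)) (mk (PF w I) G t) := by
    intro a ha hGa x y hx hy
    rw [nb1_mem] at hx hy
    obtain ⟨q', hq', htr⟩ := (mem_PP.1 (hV a ha)).2.2 e x y hx.2 hy.2
    refine nb1_forced hfb hG hp hn hGa (fun z hz => mem_rs.2 ⟨hq' z hz, ?_⟩) htr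
    exact (mem_PP.1 (nb1_nice hn htr).2.2.1).2.1 z hz
  -- unions are not free
  have hnot : ∀ a b, E a w → E b w → a ≠ b → G (rs w I (app V a)) → G (rs w I (app V b)) →
      ¬ ∀ x y, E x (bun (nb1F w e (app V a)) (nb1F w e (app V b))) →
        E y (bun (nb1F w e (app V a)) (nb1F w e (app V b))) →
        E (opair (emb (PF w I) G x) (emb (PF w I) G y)) (mk (PF w I) G t) := by
    intro a b ha hb hab hGa hGb hall
    have hFf : Fnt (bun (nb1F w e (app V a)) (nb1F w e (app V b))) :=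
      finF.bun (nb1_fnt (hV a ha)) (nb1_fnt (hV b hb))
    have hFw : Sub (bun (nb1F w e (app V a)) (nb1F w e (app V b))) w := fun z hz => by
      rcases mem_bun.1 hz with hz | hz
      · exact (nb1_mem.1 hz).1
      · exact (nb1_mem.1 hz).1
    obtain ⟨s, hs, hs2⟩ := nb1_all hfb hG hp hn hFf hFw hall
    obtain ⟨s1, hs1, h1, h1a⟩ := hG.dir s _ hs hGa
    obtain ⟨s2, hs2', h2, h2b⟩ := hG.dir s1 _ hs1 hGb
    have hs2P : E s2 (PP w I) := hG.sub s2 hs2'
    have hr := hR.add hM.sys he hs2P hFf hFw fun x y hx hy => by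
      obtain ⟨q', hq', htr⟩ := hs2 x y hx hy
      exact ⟨q', Sub.trans (Sub.trans hq' h1) h2, htr⟩
    exact hinc a b ha hb hab ⟨_, hr,
      nb1_cover (hV a ha) (Sub.trans h1a h2) fun z hz => mem_bun.2 (Or.inl hz),
      nb1_cover (hV b hb) h2b fun z hz => mem_bun.2 (Or.inr hz)⟩
  -- the sets in the extension
  let N := Ext (PF w I) G
  let i : M → N := emb (PF w I) G
  let Φ : M := img w (fun a => opair (rs w I (app V a)) (nb1F w e (app V a)))
  let Ψ : M := gr w (fun a => rs w I (app V a))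
  let Θ : M := gr w (fun a => nb1F w e (app V a))
  let A : N := sep (i (Fs w)) (fun f : N => ∃ r : N, E r (mk (PF w I) G (Gnm (PF w I))) ∧
    E (opair r f) (i Φ))
  have hA : ∀ f : N, E f A ↔ ∃ a, E a w ∧ G (rs w I (app V a)) ∧
      f = i (nb1F w e (app V a)) := by
    intro f
    simp only [A]
    rw [mem_sep' inferInstance]
    constructor
    · rintro ⟨hf, r, hr, hrf⟩
      obtain ⟨r0, hr0, rfl⟩ := (hem.G_mem _).1 hr
      obtain ⟨f0, hf0, rfl⟩ := hem.trans _ _ hf
      have h3 : E (opair r0 f0) Φ := by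
        rw [← hem.mem, ht.opair]
        exact hrf
      simp only [Φ] at h3
      rw [mem_img' inferInstance] at h3
      obtain ⟨a, ha, h4⟩ := h3
      rw [opair_inj] at h4
      obtain ⟨rfl, rfl⟩ := h4
      exact ⟨a, ha, hr0, rfl⟩
    · rintro ⟨a, ha, hGa, rfl⟩
      refine ⟨(hem.mem _ _).2 ?_, i (rs w I (app V a)), (hem.G_mem _).2 ⟨_, hGa, rfl⟩, ?_⟩
      · unfold Fs
        rw [mem_sep, mem_pow]
        exact ⟨fun z hz => (nb1_mem.1 hz).1, nb1_fnt (hV a ha)⟩
      · have h3 : E (opair (rs w I (app V a)) (nb1F w e (app V a))) Φ := by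
          simp only [Φ]
          rw [mem_img' inferInstance]
          exact ⟨a, ha, rfl⟩
        have h4 := (hem.mem _ _).2 h3
        rw [ht.opair] at h4
        exact h4
  let S : N := sep (i w) (fun a : N => ∃ r : N, E r (mk (PF w I) G (Gnm (PF w I))) ∧
    E (opair a r) (i Ψ))
  have hS : ∀ a, E a w → (E (i a) S ↔ G (rs w I (app V a))) := by
    intro a ha
    simp only [S]
    rw [mem_sep' inferInstance]
    constructor
    · rintro ⟨-, r, hr, hrf⟩
      obtain ⟨r0, hr0, rfl⟩ := (hem.G_mem _).1 hr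
      have h3 : E (opair a r0) Ψ := by
        rw [← hem.mem, ht.opair]
        exact hrf
      simp only [Ψ] at h3
      rw [opair_mem_gr inferInstance] at h3
      rwa [← h3.2]
    · intro hGa
      refine ⟨(hem.mem _ _).2 ha, i (rs w I (app V a)), (hem.G_mem _).2 ⟨_, hGa, rfl⟩, ?_⟩
      have h3 : E (opair a (rs w I (app V a))) Ψ := by
        simp only [Ψ]
        rw [opair_mem_gr inferInstance]
        exact ⟨ha, rfl⟩
      have h4 := (hem.mem _ _).2 h3
      rw [ht.opair] at h4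
      exact h4
  have hSw : Sub S (i w) := fun z hz => by
    simp only [S] at hz
    rw [mem_sep' inferInstance] at hz
    exact hz.1
  have hW : IsW (i w) := (hwx M w I G hM.w1 hM.ccc hG).1
  have hSu : ¬ Cb S := (hwf N (i w) hW).unc hSw fun b hb => by
    obtain ⟨b0, hb0, rfl⟩ := hem.trans _ _ hb
    obtain ⟨a, ha, hba, hGa⟩ := hunb b0 hb0
    exact ⟨i a, (hS a ha).2 hGa, (hem.mem _ _).2 hba⟩
  have happ : ∀ a, E a w → app (i Θ) (i a) = i (nb1F w e (app V a)) := by
    intro a ha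
    refine the_eq ?_ ?_
    · have h3 : E (opair a (nb1F w e (app V a))) Θ := by
        simp only [Θ]
        rw [opair_mem_gr inferInstance]
        exact ⟨ha, rfl⟩
      have h4 := (hem.mem _ _).2 h3
      rw [ht.opair] at h4
      exact h4
    · intro z hz
      obtain ⟨u, hu, h4⟩ := hem.trans _ _ hz
      simp only [Θ] at hu
      rw [mem_gr' inferInstance] at hu
      obtain ⟨a', ha', rfl⟩ := hu
      rw [ht.opair, opair_inj] at h4
      obtain ⟨h5, rfl⟩ := h4
      rw [(hem.inj _ _).1 h5]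
  refine ⟨A, ?_, ?_, ?_⟩
  · intro hCb
    refine hSu ((hcb N).inj (fun a : N => app (i Θ) a) inferInstance hCb ?_ ?_)
    · intro z hz
      obtain ⟨a, ha, rfl⟩ := hem.trans _ _ (hSw z hz)
      rw [happ a ha, hA]
      exact ⟨a, ha, (hS a ha).1 hz, rfl⟩
    · intro z z' hz hz' heq
      obtain ⟨a, ha, rfl⟩ := hem.trans _ _ (hSw z hz)
      obtain ⟨b, hb, rfl⟩ := hem.trans _ _ (hSw z' hz')
      rw [happ a ha, happ b hb] at heq
      have heq' := (hem.inj _ _).1 heq
      by_contra hne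
      have hab : a ≠ b := fun h => hne (by rw [h])
      refine hnot a b ha hb hab ((hS a ha).1 hz) ((hS b hb).1 hz') fun x y hx hy => ?_
      have hx' : E x (nb1F w e (app V a)) := by
        rcases mem_bun.1 hx with h | h
        · exact h
        · rwa [heq']
      have hy' : E y (nb1F w e (app V a)) := by
        rcases mem_bun.1 hy with h | h
        · exact h
        · rwa [heq']
      exact hfree a ha ((hS a ha).1 hz) x y hx' hy'
  · intro f hf
    obtain ⟨a, ha, hGa, rfl⟩ := (hA f).1 hf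
    refine ⟨ht.fnt _ (nb1_fnt (hV a ha)), (ht.sub _ _).2 fun z hz => (nb1_mem.1 hz).1, ?_⟩
    intro x y hx hy
    obtain ⟨x0, hx0, rfl⟩ := hem.trans _ _ hx
    obtain ⟨y0, hy0, rfl⟩ := hem.trans _ _ hy
    exact pairIn_iff.2 (hfree a ha hGa x0 y0 hx0 hy0)
  · intro f f' hf hf' hne hfr
    obtain ⟨a, ha, hGa, rfl⟩ := (hA f).1 hf
    obtain ⟨b, hb, hGb, rfl⟩ := (hA f').1 hf'
    have hab : a ≠ b := fun h => hne (by rw [h])
    refine hnot a b ha hb hab hGa hGb fun x y hx hy => ?_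
    have key : ∀ z, E z (bun (nb1F w e (app V a)) (nb1F w e (app V b))) →
        E (i z) (bun (i (nb1F w e (app V a))) (i (nb1F w e (app V b)))) := by
      intro z hz
      rw [mem_bun]
      rcases mem_bun.1 hz with h | h
      · exact Or.inl ((hem.mem _ _).2 h)
      · exact Or.inr ((hem.mem _ _).2 h)
    exact pairIn_iff.1 (hfr (i x) (i y) (key x hx) (key y hy))

end SW
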